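import Mathlib
import Pool.Agent.Work.MP_122e00_nt.Hyb.Main

/-!
An asymptotic upper bound for the shifted convolution of `d_3`, with an explicit multiple of the
conjectured leading coefficient.
-/

namespace Pool.Agent.Work.MP_122e00_nt.Kept.UpperBound

open Filter Topology ArithmeticFunction
open scoped ArithmeticFunction.zeta

/-- The probability that `p ^ j` divides the product of `s` independent random integers. -/
noncomputable def prob (s p j : ℕ) : ℝ :=
  1 - (1 - 1 / (p : ℝ)) ^ s *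
    ∑ i ∈ Finset.range j, ((i + s - 1).choose (s - 1) : ℝ) / (p : ℝ) ^ i

/-- The local factor at `p`, where `ν` is the exponent of `p` in the shift. -/
noncomputable def localFactor (s p ν : ℕ) : ℝ :=
  ∑ j ∈ Finset.range (ν + 1), (p : ℝ) ^ j * (prob s p j ^ 2 - prob s p (j + 1) ^ 2)

/-- The conjectured leading coefficient of `D_r(X;h) / (X (log X)^(2(r-1)))`. -/
noncomputable def leadCoeff (r h : ℕ) : ℝ :=
  (∏' p : Nat.Primes, localFactor (r - 1) p (h.factorization p)) / ((r - 1).factorial : ℝ) ^ 2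

theorem result (h : ℕ) (hh : 0 < h) :
    0 < leadCoeff 3 h ∧
    ∀ c : ℝ, 4 / 3 * leadCoeff 3 h < c →
      ∀ᶠ X : ℝ in atTop,
        ∑ n ∈ Finset.Icc 1 ⌊X⌋₊, ((((ζ : ArithmeticFunction ℕ) ^ 3) n *
          ((ζ : ArithmeticFunction ℕ) ^ 3) (n + h) : ℕ) : ℝ) ≤ c * (X * (Real.log X) ^ 4) := by
  have hh0 : h ≠ 0 := by omega
  have hlead : leadCoeff 3 h = Work.MP_122e00_nt.Csing 2 h / 4 := by
    unfold leadCoeff
    rw [Work.MP_122e00_nt.Csing_eq (by norm_num : 1 ≤ 2) h hh0]
    have h4 : (((3 - 1 : ℕ).factorial : ℝ)) ^ 2 = 4 := by norm_num [Nat.factorial]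
    rw [h4]
    rfl
  have hpos := Work.MP_122e00_nt.Csing_pos (by norm_num : 1 ≤ 2) h hh0
  refine ⟨?_, ?_⟩
  · rw [hlead]
    positivity
  · intro c hc
    have h1 := Work.MP_122e00_nt.Hyb.mFinal h hh0 c (by rw [hlead] at hc; linarith)
    filter_upwards [h1] with X hX
    refine le_trans (le_of_eq ?_) hX
    unfold Work.MP_122e00_nt.Hyb.DS
    have e : Finset.Icc 1 ⌊X⌋₊ = Finset.Ioc 0 ⌊X⌋₊ := by
      ext n
      simp only [Finset.mem_Icc, Finset.mem_Ioc]
      omega
    rw [e]
    refine Finset.sum_congr rfl fun n _ => ?_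
    push_cast
    rfl

end Pool.Agent.Work.MP_122e00_nt.Kept.UpperBound
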